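import Mathlib
import Pool.Agent.H759R2.Kad.Inner

/-!
Every derivation of a von Neumann algebra `R ⊆ B(H)` into `B(H)` is inner; no continuity of the
derivation is assumed.
-/

set_option autoImplicit false

noncomputable section

namespace Pool.Agent.Results.MP_22c5db_an.EveryDerivationInner

universe u

/-- **Q1.** Let `R` be a von Neumann algebra acting on the Hilbert space `H` and let `δ : R → B(H)` be
a linear map with `δ (a b) = a δ(b) + δ(a) b`; nothing is assumed on the continuity of `δ`. Then `δ` is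
bounded and there is `T ∈ B(H)` with `δ a = T a - a T` for all `a ∈ R`, and `‖T‖ ≤ K C` for an absolute
constant `K` whenever `‖δ a‖ ≤ C ‖a‖` for all `a ∈ R`. -/
theorem result (H : Type u) [NormedAddCommGroup H] [InnerProductSpace ℂ H] [CompleteSpace H]
    (R : VonNeumannAlgebra H) (δ : R.toStarSubalgebra →ₗ[ℂ] (H →L[ℂ] H))
    (hδ : ∀ a b : R.toStarSubalgebra,
      δ (a * b) = (a : H →L[ℂ] H) * δ b + δ a * (b : H →L[ℂ] H)) :
    (∃ C : ℝ, ∀ a : R.toStarSubalgebra, ‖δ a‖ ≤ C * ‖(a : H →L[ℂ] H)‖) ∧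
      ∃ T : H →L[ℂ] H, (∀ a : R.toStarSubalgebra, δ a = T * (a : H →L[ℂ] H) - (a : H →L[ℂ] H) * T) ∧
        ∀ C : ℝ, 0 ≤ C → (∀ a : R.toStarSubalgebra, ‖δ a‖ ≤ C * ‖(a : H →L[ℂ] H)‖) →
          ‖T‖ ≤ 5184 * 6 ^ 25 * 8 ^ 77 * C := by
  have hR : IsClosed (R.toStarSubalgebra : Set (H →L[ℂ] H)) := by
    have h : (R.toStarSubalgebra : Set (H →L[ℂ] H)) =
        Set.centralizer (Set.centralizer (R.toStarSubalgebra : Set (H →L[ℂ] H))) :=
      R.centralizer_centralizer'.symm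
    rw [h]
    exact Set.isClosed_centralizer _
  have := hR
  let π : R.toStarSubalgebra →⋆ₐ[ℂ] (H →L[ℂ] H) := R.toStarSubalgebra.subtype
  obtain ⟨M, hM0, hM⟩ := H759R2.Kad.prove7_ring (R.toStarSubalgebra) H π δ hδ
  let D : R.toStarSubalgebra →L[ℂ] (H →L[ℂ] H) := δ.mkContinuous M hM
  obtain ⟨T, hT, hTa⟩ := H759R2.Kad.inner_bound (R.toStarSubalgebra) H
    (π : R.toStarSubalgebra →⋆ₙₐ[ℂ] (H →L[ℂ] H)) D hδ
  refine ⟨⟨M, hM⟩, -T, fun a => ?_, fun C hC0 hC => ?_⟩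
  · have h := hTa a
    change δ a = (a : H →L[ℂ] H) * T - T * (a : H →L[ℂ] H) at h
    rw [h, neg_mul, mul_neg]
    abel
  · rw [norm_neg]
    have hD : ‖D‖ ≤ C :=
      ContinuousLinearMap.opNorm_le_bound _ hC0 fun a => hC a
    exact hT.trans (mul_le_mul_of_nonneg_left hD (by norm_num))

end Pool.Agent.Results.MP_22c5db_an.EveryDerivationInner
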